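import Pool.Agent.MP_c69980_ag.H43.Spec5

/-!
Descent to a countable field and transfer to a generic complex point.
-/

set_option autoImplicit false

namespace Pool.Agent.MP_c69980_ag.H43

open MvPolynomial H60 Finset

section Graph
variable {K : Type} [Field K]

/-- The graph of an isomorphism between subfields. -/
structure KalgGr (G : Subring (K × ℂ)) : Prop where
  zero : ∀ x y, (x, y) ∈ G → (x = 0 ↔ y = 0)
  inv : ∀ x y, (x, y) ∈ G → (x⁻¹, y⁻¹) ∈ G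

variable {G : Subring (K × ℂ)} {x x' : K} {y y' : ℂ}

lemma KalgGr.uniq (h : KalgGr G) (a : (x, y) ∈ G) (b : (x', y') ∈ G) : x = x' ↔ y = y' := by
  rw [← sub_eq_zero, ← sub_eq_zero (a := y)]
  exact h.zero _ _ (sub_mem a b)

lemma KalgGr.div (h : KalgGr G) (a : (x, y) ∈ G) (b : (x', y') ∈ G) : (x / x', y / y') ∈ G := by
  rw [div_eq_mul_inv, div_eq_mul_inv]
  exact mul_mem a (h.inv _ _ b)

/-- The domain of the graph. -/
def KalgGr.dom (h : KalgGr G) : Subfield K where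
  carrier := {x | ∃ y, (x, y) ∈ G}
  mul_mem' := fun ⟨_, a⟩ ⟨_, b⟩ => ⟨_, mul_mem a b⟩
  one_mem' := ⟨_, one_mem G⟩
  add_mem' := fun ⟨_, a⟩ ⟨_, b⟩ => ⟨_, add_mem a b⟩
  zero_mem' := ⟨_, zero_mem G⟩
  neg_mem' := fun ⟨_, a⟩ => ⟨_, neg_mem a⟩
  inv_mem' := fun _ ⟨_, a⟩ => ⟨_, h.inv _ _ a⟩

lemma kalg_graph {A : Type} [CommRing A] (f : A →+* K) (g : A →+* ℂ)
    (h : ∀ a, f a = 0 ↔ g a = 0) : ∃ G : Subring (K × ℂ), KalgGr G ∧ (∀ a, (f a, g a) ∈ G) ∧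
      ∀ x y, (x, y) ∈ G → ∃ a b, x = f a / f b ∧ y = g a / g b := by
  let G : Subring (K × ℂ) :=
    { carrier := {p | ∃ a b, f b ≠ 0 ∧ p.1 * f b = f a ∧ p.2 * g b = g a}
      mul_mem' := by
        rintro p q ⟨a, b, h0, h1, h2⟩ ⟨a', b', h0', h1', h2'⟩
        refine ⟨a * a', b * b', by simp [h0, h0'], ?_, ?_⟩
        · simp only [map_mul, ← h1, ← h1', Prod.fst_mul]; ring
        · simp only [map_mul, ← h2, ← h2', Prod.snd_mul]; ring
      one_mem' := ⟨1, 1, by simp, by simp, by simp⟩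
      add_mem' := by
        rintro p q ⟨a, b, h0, h1, h2⟩ ⟨a', b', h0', h1', h2'⟩
        refine ⟨a * b' + a' * b, b * b', by simp [h0, h0'], ?_, ?_⟩
        · simp only [map_mul, map_add, ← h1, ← h1', Prod.fst_add]; ring
        · simp only [map_mul, map_add, ← h2, ← h2', Prod.snd_add]; ring
      zero_mem' := ⟨0, 1, by simp, by simp, by simp⟩
      neg_mem' := by
        rintro p ⟨a, b, h0, h1, h2⟩
        exact ⟨-a, b, h0, by simp [← h1], by simp [← h2]⟩ }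
  have z : ∀ x y, (x, y) ∈ G → (x = 0 ↔ y = 0) := by
    rintro x y ⟨a, b, h0, h1, h2⟩
    have := h a
    rw [← h1, ← h2] at this
    simpa [h0, mt (h b).2 h0] using this
  refine ⟨G, ⟨z, fun x y hxy => ?_⟩, fun a => ⟨a, 1, by simp, by simp, by simp⟩, ?_⟩
  · by_cases e : x = 0
    · rw [(z x y hxy).1 e, e, inv_zero, inv_zero]; exact zero_mem G
    · have e' := mt (z x y hxy).2 e
      obtain ⟨a, b, h0, h1, h2⟩ := hxy
      refine ⟨b, a, h1 ▸ mul_ne_zero e h0, ?_, ?_⟩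
      · rw [← h1]; exact inv_mul_cancel_left₀ e _
      · rw [← h2]; exact inv_mul_cancel_left₀ e' _
  · rintro x y ⟨a, b, h0, h1, h2⟩
    exact ⟨a, b, (eq_div_iff h0).2 h1, (eq_div_iff (mt (h b).2 h0)).2 h2⟩

variable [Algebra ℂ K]

lemma KalgGr.der (h : KalgGr G) (h1 : SExt) (E : Derivation ℂ K K)
    (hE : ∀ x ∈ h.dom, E x ∈ h.dom) : ∃ D : Der, ∀ x y, (x, y) ∈ G → (E x, D y) ∈ G := by
  have : ∀ p : G, ∃ y, (E p.1.1, y) ∈ G := fun p => hE _ ⟨p.1.2, p.2⟩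
  choose d hd using this
  let d' : G →+ ℂ := AddMonoidHom.mk' d fun p q =>
    (h.uniq (hd (p + q)) (add_mem (hd p) (hd q))).1 (map_add E _ _)
  obtain ⟨D, hD⟩ := h1.1 G ((RingHom.snd K ℂ).comp G.subtype) d'
    (fun p q => (h.uniq (hd (p * q))
      (add_mem (mul_mem p.2 (hd q)) (mul_mem q.2 (hd p)))).1 (E.leibniz _ _))
    fun p e => (h.zero _ _ (hd p)).1 (by rw [(h.zero p.1.1 p.1.2 p.2).2 e, map_zero])
  refine ⟨D, fun x y hxy => ?_⟩
  have := hd ⟨_, hxy⟩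
  rwa [← show D y = d ⟨_, hxy⟩ from hD ⟨_, hxy⟩] at this

lemma kalg_mem {B ι : Type} [CommRing B] [Algebra ℂ B] {S : Subring B} {k : Subfield ℂ}
    (hk : ∀ c ∈ k, algebraMap ℂ B c ∈ S) {v : ι → B} (hv : ∀ i, v i ∈ S) {P : MvPolynomial ι ℂ}
    (hP : Cf k P) : aeval v P ∈ S := eval₂_mem (fun m _ => hk _ (hP m)) hv

lemma kalg_pair {ι : Type} {k : Subfield ℂ} (hk : ∀ c ∈ k, (algebraMap ℂ K c, c) ∈ G) {v : ι → K}
    {v' : ι → ℂ} (hv : ∀ i, (v i, v' i) ∈ G) {P : MvPolynomial ι ℂ} (hP : Cf k P) :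
    (aeval v P, eval v' P) ∈ G := by
  have e : (aeval v P, eval v' P) = aeval (fun i => (v i, v' i)) P := Prod.ext
    (congrArg (fun f => f P) (comp_aeval (f := fun i => (v i, v' i)) (AlgHom.fst ℂ K ℂ))).symm
    (congrArg (fun f => f P) (comp_aeval (f := fun i => (v i, v' i)) (AlgHom.snd ℂ K ℂ))).symm
  rw [e]
  exact kalg_mem hk hv hP

variable {M : ℕ}

/-- The function field over `k`. -/
def kalgK (k : Subfield ℂ) (u : Fin M → K) : Subfield K :=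
  Subfield.closure (algebraMap ℂ K '' k ∪ rat u)

lemma kalg_c {k : Subfield ℂ} (u : Fin M → K) : ∀ c ∈ k, algebraMap ℂ K c ∈ kalgK k u :=
  fun c hc => Subfield.subset_closure (Or.inl ⟨c, hc, rfl⟩)

lemma kalg_r (k : Subfield ℂ) {u : Fin M → K} (h : x ∈ rat u) : x ∈ kalgK k u :=
  Subfield.subset_closure (Or.inr h)

lemma kalg_ev1 {u : Fin M → K} (h : x ∈ K0 u) : Ev fun k => x ∈ kalgK k u := by
  induction h using IntermediateField.adjoin_induction with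
  | mem x hx => exact Ev.of_forall fun k => kalg_r k hx
  | algebraMap c => exact (ev_mem c).mono fun k => kalg_c u c
  | add _ _ _ _ a b => exact (a.and b).mono fun k h => add_mem h.1 h.2
  | inv _ _ a => exact a.mono fun k h => inv_mem h
  | mul _ _ _ _ a b => exact (a.and b).mono fun k h => mul_mem h.1 h.2

lemma kalg_ev2 {u : Fin M → K} {m : ℕ} {E : Fin m → Derivation ℂ K K}
    (h : x ∈ Subring.closure (Set.range (algebraMap ℂ K) ∪ {x | ∃ j, ∃ φ ∈ K0 u, x = E j φ / φ})) :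
    Ev fun k => x ∈ Subring.closure
      (algebraMap ℂ K '' k ∪ {x | ∃ j, ∃ φ ∈ kalgK k u, x = E j φ / φ}) := by
  induction h using Subring.closure_induction with
  | mem x hx =>
    rcases hx with ⟨c, rfl⟩ | ⟨j, φ, a, rfl⟩
    · exact (ev_mem c).mono fun k h => Subring.subset_closure (Or.inl ⟨c, h, rfl⟩)
    · exact (kalg_ev1 a).mono fun k h => Subring.subset_closure (Or.inr ⟨j, φ, h, rfl⟩)
  | zero => exact Ev.of_forall fun k => zero_mem _
  | one => exact Ev.of_forall fun k => one_mem _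
  | add _ _ _ _ a b => exact (a.and b).mono fun k h => add_mem h.1 h.2
  | neg _ _ a => exact a.mono fun k h => neg_mem h
  | mul _ _ _ _ a b => exact (a.and b).mono fun k h => mul_mem h.1 h.2

/-- The kernel of an evaluation is generated over `k`. -/
lemma kalg_ev3 {ι : Type} [Finite ι] (v : ι → K) : Ev fun k => ∀ y : ι → ℂ,
    (∀ P, Cf k P → aeval v P = 0 → eval y P = 0) → ∀ P, aeval v P = 0 → eval y P = 0 := by
  obtain ⟨s, hs⟩ := (isNoetherianRing_iff_ideal_fg _).1 inferInstance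
    (RingHom.ker (aeval v : MvPolynomial ι ℂ →ₐ[ℂ] K))
  refine (Ev.all fun P : s => ev_cf P.1).mono fun k hk y hy P hP => ?_
  have : Ideal.span (s : Set (MvPolynomial ι ℂ)) ≤ RingHom.ker (eval y) :=
    Ideal.span_le.2 fun Q hQ => hy Q (hk ⟨Q, hQ⟩) (by
      have : Q ∈ Ideal.span (s : Set (MvPolynomial ι ℂ)) := Ideal.subset_span hQ
      rwa [hs] at this)
  exact this (hs ▸ hP)

lemma kalg_ev4 {m : ℕ} (h : Algebra.trdeg ℂ K = m) (v : Fin (m + 1) → K) :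
    Ev fun k => ∃ H : MvPolynomial (Fin (m + 1)) ℂ, Cf k H ∧ H ≠ 0 ∧ aeval v H = 0 := by
  have : ¬ AlgebraicIndependent ℂ v := fun a => by
    have := a.cardinalMk_le_trdeg
    rw [h, Cardinal.mk_fin, Nat.cast_le] at this
    omega
  rw [algebraicIndependent_iff] at this
  push Not at this
  obtain ⟨H, a, b⟩ := this
  exact (ev_cf H).mono fun k hk => ⟨H, hk, b, a⟩

lemma kalg_ind {k : Subfield ℂ} {ι : Type} {v : ι → ℂ} (h : AlgebraicIndependent k v)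
    {H : MvPolynomial ι ℂ} (hH : Cf k H) (e : eval v H = 0) : H = 0 := by
  obtain ⟨H, rfl⟩ := cf_iff.1 hH
  rw [eval_map_sub] at e
  rw [algebraicIndependent_iff.1 h H e, map_zero]

/-- The isomorphism attached to a generic point. -/
lemma kalg_iso (h2 : SHom) {k : Subfield ℂ} {u : Fin M → K} {b₀ : Fin M} (hb : u b₀ ≠ 0)
    {y : Fin M → ℂ} (hy : Gen k {F | aeval u F = 0} y) : ∃ (G : Subring (K × ℂ)) (h : KalgGr G),
    (∀ c ∈ k, (algebraMap ℂ K c, c) ∈ G) ∧ (∀ c b, (u c / u b, y c / y b) ∈ G) ∧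
    h.dom = kalgK k u ∧ ∀ x y', (x, y') ∈ G → y' ∈ FL k y := by
  have hb' : y b₀ ≠ 0 := fun e => hb (by
    simpa using (hy (X b₀) 1 (isHomogeneous_X _ _) (cf_X _)).1 (by simpa))
  obtain ⟨G, h, a1, a2⟩ := kalg_graph
    ((aeval (fun c => u c / u b₀) : PR M →ₐ[ℂ] K).toRingHom.comp (cfr (Fin M) k).subtype)
    ((eval fun c => y c / y b₀).comp (cfr (Fin M) k).subtype) fun P => by
      obtain ⟨H, b1, b2, b3⟩ := h2 M (Fin M) id (fun _ => b₀) P.1 _ le_rfl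
      have e := hy H _ b1 (b2 k (mem_cfr.1 P.2))
      have e1 := b3 K u fun _ => hb
      have e2 : eval y H = _ := b3 ℂ y fun _ => hb'
      rw [Set.mem_ofPred_eq, e1, e2, mul_eq_zero_iff_left (pow_ne_zero _
        (prod_ne_zero_iff.2 fun _ _ => hb)), mul_eq_zero_iff_left (pow_ne_zero _
        (prod_ne_zero_iff.2 fun _ _ => hb'))] at e
      exact e.symm
  have c1 : ∀ c ∈ k, (algebraMap ℂ K c, c) ∈ G := fun c hc => by
    simpa using a1 ⟨C c, mem_cfr.2 (cf_C hc)⟩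
  have c2 : ∀ c, (u c / u b₀, y c / y b₀) ∈ G := fun c => by
    simpa using a1 ⟨X c, mem_cfr.2 (cf_X c)⟩
  have c3 : ∀ c b, (u c / u b, y c / y b) ∈ G := fun c b => by
    have := h.div (c2 c) (c2 b)
    rwa [div_div_div_cancel_right₀ hb, div_div_div_cancel_right₀ hb'] at this
  refine ⟨G, h, c1, c3, le_antisymm ?_ (Subfield.closure_le.2 ?_), fun x y' hxy => ?_⟩
  · rintro x ⟨y', hxy⟩
    obtain ⟨a, b, rfl, -⟩ := a2 _ _ hxy
    have : ∀ a : cfr (Fin M) k, aeval (fun c => u c / u b₀) a.1 ∈ kalgK k u := fun a =>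
      kalg_mem (S := (kalgK k u).toSubring) (kalg_c u) (fun c => kalg_r k ⟨c, b₀, rfl⟩)
        (mem_cfr.1 a.2)
    exact div_mem (this a) (this b)
  · rintro _ (⟨c, hc, rfl⟩ | ⟨c, b, rfl⟩)
    · exact ⟨_, c1 c hc⟩
    · exact ⟨_, c3 c b⟩
  · obtain ⟨a, b, -, rfl⟩ := a2 _ _ hxy
    have : ∀ a : cfr (Fin M) k, eval (fun c => y c / y b₀) a.1 ∈ FL k y := fun a =>
      (mem_cfr.1 a.2).eval_mem_field (le_FL k y) fun c => rat_FL k y ⟨c, b₀, rfl⟩
    exact div_mem (this a) (this b)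

lemma kalg_pres {t : ℕ} {w : Fin M → Option (Fin t)} {β : Cht M t} {k : Subfield ℂ} {u : Fin M → K}
    (hβ : Ch w β u) (E : Derivation ℂ K K) (h : ∀ x, E (co β u x) ∈ kalgK k u) :
    ∀ x ∈ kalgK k u, E x ∈ kalgK k u := by
  have d : ∀ x ∈ kalgK k u, E x ∈ kalgK k u → E x⁻¹ ∈ kalgK k u := fun x a b => by
    rw [Derivation.leibniz_inv]
    exact mul_mem (neg_mem (pow_mem (inv_mem a) 2)) b
  have m : ∀ x ∈ kalgK k u, ∀ y ∈ kalgK k u, E x ∈ kalgK k u → E y ∈ kalgK k u →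
      E (x * y) ∈ kalgK k u := fun x a y b c d => by
    rw [Derivation.leibniz]
    exact add_mem (mul_mem a d) (mul_mem b c)
  intro x hx
  induction hx using Subfield.closure_induction with
  | mem x hx =>
    rcases hx with ⟨c, -, rfl⟩ | ⟨c, b, rfl⟩
    · rw [Derivation.map_algebraMap]; exact zero_mem _
    · rw [div_eq_co hβ, div_eq_mul_inv]
      exact m _ (kalg_r k (co_mem β u _)) _ (inv_mem (kalg_r k (co_mem β u _))) (h _)
        (d _ (kalg_r k (co_mem β u _)) (h _))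
  | one => rw [Derivation.map_one_eq_zero]; exact zero_mem _
  | add _ _ _ _ a b => rw [map_add]; exact add_mem a b
  | neg _ _ a => rw [map_neg]; exact neg_mem a
  | inv x hx a => exact d x hx a
  | mul x y hx hy a b => exact m x hx y hy a b

end Graph

theorem sKalg (h1 : SExt) (h2 : SHom) : SKalg := by
  intro t a M n w Θ PP K _ _ U z u κ J γ E γ₀ b₀ Q₀ g _ kl
  have e1 : Ev κ.Ok := ((ev_cf κ.Q).and ((Ev.all fun c => Ev.all fun i => ev_cf (κ.Pc c i)).and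
    (Ev.all fun β => Ev.all fun f : κ.Jb β => (ev_cf f.1.1).and (ev_cf f.1.2)))).mono
    fun k h => ⟨kl.ke.hQ, kl.ke.hP, h.1, h.2.1, fun β f hf => h.2.2 β ⟨f, hf⟩⟩
  have e2 := Ev.all fun j => Ev.all fun i => kalg_ev1 (kl.tk.mem j i)
  have e3 := Ev.all fun c => Ev.all fun i => kalg_ev2 (kl.ke.mem c i)
  have e4 := Ev.all fun β : Cht M t => kalg_ev3 (co β u)
  have e5 := Ev.all fun c : Fin (κ.m + 1) → Fin M => Ev.all fun b : Fin (κ.m + 1) → Fin M =>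
    kalg_ev4 kl.tk.deg fun i => u (c i) / u (b i)
  have e6 : Ev fun k => ∀ β, Ch w β u → ∀ f : κ.Jb β, ∃ (l : Fin κ.m) (N b Ψ : CP M t), Cf k N ∧
      Cf k b ∧ Cf k Ψ ∧ f.1.2 = Ψ * N ∧
      aeval (co β u) N = aeval (co β u) b * E l (aeval (co β u) f.1.1) :=
    Ev.all fun β => Ev.imp _ fun hβ => Ev.all fun f => by
      obtain ⟨l, N, b, Ψ, a1, a2⟩ := (kl.kb β hβ).cert f.1 f.2
      exact ((ev_cf N).and ((ev_cf b).and (ev_cf Ψ))).mono fun k h =>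
        ⟨l, N, b, Ψ, h.1, h.2.1, h.2.2, a1, a2⟩
  have e7 : Ev fun k => ∀ β, Ch w β u → ∀ y' : Fin (κ.m - 1) → CI M t,
      ∃ H : MvPolynomial (Fin (κ.m - 1)) ℂ, Cf k H ∧ H ≠ 0 ∧ ∀ y : CI M t → ℂ,
      (∀ P : CP M t, aeval (co β u) P = 0 → eval y P = 0) → eval y (dh κ.Q) = 0 →
      (∃ b : CP M t, eval y b ≠ 0 ∧ ∀ j i, ∃ c : CP M t,
        aeval (co β u) b * γ j i = aeval (co β u) c) →
      (∀ f ∈ κ.Jb β, eval y f.2 = 0) → eval (y ∘ y') H = 0 :=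
    Ev.all fun β => Ev.imp _ fun hβ => Ev.all fun y' => by
      obtain ⟨H, a1, a2⟩ := (kl.kb β hβ).zz y'
      exact (ev_cf H).mono fun k h => ⟨H, h, a1, a2⟩
  refine (g.and (e1.and (e2.and (e3.and (e4.and (e5.and (e6.and e7))))))).mono ?_
  rintro k ⟨g, e1, e2, e3, e4, e5, e6, e7⟩
  refine ⟨e1, fun p₀ hp => ?_⟩
  obtain ⟨G, h, c1, c2, c3, c4⟩ := kalg_iso h2 kl.b0 hp
  have ch : ∀ β, Ch w β (Θ p₀) → Ch w β u := fun β hβ o => ⟨(hβ o).1, fun e => (hβ o).2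
    (by simpa using (hp (X (β o)) 1 (isHomogeneous_X _ _) (cf_X _)).2 (by simpa))⟩
  obtain ⟨β₀, hβ₀⟩ := g.ch p₀
  have pr : ∀ β {P : CP M t}, Cf k P → (aeval (co β u) P, eval (co β (Θ p₀)) P) ∈ G :=
    fun β _ hP => kalg_pair c1 (fun x => c2 _ _) hP
  have : ∀ j i, ∃ y, (γ j i, y) ∈ G := fun j i => show γ j i ∈ h.dom from c3 ▸ e2 j i
  choose γ' hγ using this
  have hv : ∀ β j x, (vf (PP β) (γ j) (co β u) x, vf (PP β) (γ' j) (co β (Θ p₀)) x) ∈ G :=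
    fun β j x => by
      have := sum_mem (S := G) (t := univ) fun i _ => mul_mem (hγ j i) (pr β (g.cf β i x))
      rwa [← Prod.mk.eta (p := ∑ _, _), Prod.fst_sum, Prod.snd_sum] at this
  have : ∀ j, ∃ D : Der, ∀ x y, (x, y) ∈ G → (E j x, D y) ∈ G := fun j => h.der h1 _ (by
    rw [c3]
    refine kalg_pres (ch _ hβ₀) _ fun x => ?_
    rw [kl.tk.act β₀ (ch _ hβ₀), ← c3]
    exact ⟨_, hv β₀ j x⟩)
  choose E' hE using this
  refine ⟨J, γ', E', ⟨fun j i => c4 _ _ (hγ j i), fun j i => ?_, fun j c hc => ?_, fun j => ?_, ?_⟩,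
    fun e => kl.ke.Qn ((hp _ _ e1.hQ e1.cQ).1 e), fun c i => ?_, fun β hβ f hf => ?_,
    fun β hβ y s1 s2 ⟨b, s3, s4, s5⟩ => ?_⟩
  · refine (h.uniq (hγ j (J i)) (x' := if j = i then 1 else 0) ?_).1 (kl.tk.ech j i)
    split_ifs
    exacts [one_mem G, zero_mem G]
  · exact (h.zero _ _ (hE j _ _ (c1 c hc))).1 (Derivation.map_algebraMap _ _)
  · exact (g.tan_iff hβ₀).2 fun x =>
      (h.uniq (hE j _ _ (c2 _ _)) (hv β₀ j x)).1 (kl.tk.act β₀ (ch _ hβ₀) j x)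
  · rintro ⟨v, v1, v2⟩
    choose c b hv using v1
    obtain ⟨H, b1, b2, b3⟩ := e5 c b
    refine b2 (kalg_ind v2 b1 ?_)
    rw [funext hv]
    exact (h.zero _ _ (kalg_pair c1 (fun i => c2 (c i) (b i)) b1)).1 b3
  · have b1 : ∀ x ∈ Subring.closure
        (algebraMap ℂ K '' k ∪ {x | ∃ j, ∃ φ ∈ kalgK k u, x = E j φ / φ}), ∃ y ∈ Subring.closure
        (k ∪ {x | ∃ j, ∃ φ ∈ FL k (Θ p₀), x = E' j φ / φ} : Set ℂ), (x, y) ∈ G := fun x hx => by
      induction hx using Subring.closure_induction with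
      | mem x hx =>
        rcases hx with ⟨c, hc, rfl⟩ | ⟨j, φ, a, rfl⟩
        · exact ⟨c, Subring.subset_closure (Or.inl hc), c1 c hc⟩
        · obtain ⟨φ', a'⟩ : φ ∈ h.dom := c3 ▸ a
          exact ⟨_, Subring.subset_closure (Or.inr ⟨j, φ', c4 _ _ a', rfl⟩), h.div (hE j _ _ a') a'⟩
      | zero => exact ⟨0, zero_mem _, zero_mem G⟩
      | one => exact ⟨1, one_mem _, one_mem G⟩
      | add _ _ _ _ a b =>
        obtain ⟨_, a1, a2⟩ := a
        obtain ⟨_, b1, b2⟩ := b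
        exact ⟨_, add_mem a1 b1, add_mem a2 b2⟩
      | neg _ _ a =>
        obtain ⟨_, a1, a2⟩ := a
        exact ⟨_, neg_mem a1, neg_mem a2⟩
      | mul _ _ _ _ a b =>
        obtain ⟨_, a1, a2⟩ := a
        obtain ⟨_, b1, b2⟩ := b
        exact ⟨_, mul_mem a1 b1, mul_mem a2 b2⟩
    obtain ⟨y, b2, b3⟩ := b1 _ (e3 c i)
    have b4 := h.div (pr β₀ ((e1.cP c i).rename fun c => (c, none)))
      (pr β₀ (e1.cQ.rename fun c => (c, none)))
    have b5 : ∀ {P : PR M}, P.IsHomogeneous κ.e →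
        eval (co β₀ (Θ p₀)) (dh P) = eval (Θ p₀) P / _ := fun hP => eval_dh (y := Θ p₀) hP β₀
    rw [← dh, ← dh, eval_dh (e1.hP c i), eval_dh e1.hQ, b5 (e1.hP c i), b5 e1.hQ,
      div_div_div_cancel_right₀ (pow_ne_zero _ (ch _ hβ₀ none).2),
      div_div_div_cancel_right₀ (pow_ne_zero _ (hβ₀ none).2)] at b4
    rwa [(h.uniq b4 b3).1 rfl]
  · obtain ⟨l, N, b, Ψ, b1, b2, b3, b4, b5⟩ := e6 β (ch β hβ) ⟨f, hf⟩
    exact ⟨l, N, b, Ψ, b1, b2, b3, b4, (h.uniq (pr β b1)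
      (mul_mem (pr β b2) (hE l _ _ (pr β (e1.cJ β f hf).1)))).1 b5⟩
  · refine or_iff_not_imp_right.2 fun s6 ⟨v, v1, v2⟩ => ?_
    push Not at s6
    choose y' hy using v1
    obtain ⟨H, b1, b2, b3⟩ := e7 β (ch β hβ) y'
    refine b2 (kalg_ind v2 b1 ?_)
    rw [← funext hy]
    refine b3 y (e4 β y fun P hP e => s1 P hP ((h.zero _ _ (pr β hP)).1 e)) s2
      ⟨b, s4, fun j i => ?_⟩ s6
    obtain ⟨c, b4, b5⟩ := s5 j i
    exact ⟨c, (h.uniq (mul_mem (pr β s3) (hγ j i)) (pr β b4)).2 b5⟩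

end Pool.Agent.MP_c69980_ag.H43
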